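import Pool.Agent.helper62.DP8.Spec

/-! Project sq8: (MP_e3efbc_co), module MON: monotonicity of `Pc` in the slack, and the empty set. -/

set_option autoImplicit false

namespace Pool.Agent.helper62.DP8

theorem MON : MON_stmt := by
  constructor
  · intro V H T s s' hs hP W R L hW hC hL
    refine hP W R L hW hC ?_
    intro v hv
    have h1 := hs v hv
    have h2 := hL v hv
    omega
  · intro V H s W R L hW _ _
    obtain ⟨w⟩ := hW
    exact ⟨fun _ => w, by simp, by simp⟩

end Pool.Agent.helper62.DP8
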